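import Pool.Agent.H23.SS

set_option autoImplicit false

namespace Pool.Agent.Results.MP_148663_lc.CoNPHard
open Pool.Agent.H11.PT Finset

/-- `P = {x ≥ 0 : A x ≤ b}`; each row is a 0-1 vector and a right-hand side in binary -/
def poly (n : ℕ) (R : List (List Bool × List Bool)) : Set (Fin n → ℝ) :=
  {x | 0 ≤ x ∧ ∀ r ∈ R, (∑ j : Fin n, if r.1.getD j false then x j else 0) ≤ bin r.2}

/-- `c` is the primitive integer outer normal of a facet of `P` containing `u` -/
def FacetNormal {n : ℕ} (P : Set (Fin n → ℝ)) (u : Fin n → ℝ) (c : Fin n → ℤ) : Prop :=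
  univ.gcd c = 1 ∧ (∀ x ∈ P, ∑ j, c j * x j ≤ ∑ j, c j * u j) ∧
    Module.finrank ℝ (vectorSpan ℝ {x ∈ P | ∑ j, c j * x j = ∑ j, c j * u j}) + 1 = n

/-- at every vertex the facet normals are the rows of an `n × n` matrix of determinant `±1` -/
def Uni (p : ℕ × List (List Bool × List Bool)) : Prop :=
  ∀ u ∈ (poly p.1 p.2).extremePoints ℝ, ∃ M : Matrix (Fin p.1) (Fin p.1) ℤ,
    (∀ c, FacetNormal (poly p.1 p.2) u c ↔ ∃ i, M i = c) ∧ |M.det| = 1

/-- valid input: rows of length `n` and positive right-hand sides -/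
def Valid (p : ℕ × List (List Bool × List Bool)) : Prop :=
  ∀ r ∈ p.2, r.1.length = p.1 ∧ 0 < bin r.2

section
variable {n : ℕ}

noncomputable def L (c : Fin n → ℤ) : (Fin n → ℝ) →ₗ[ℝ] ℝ := ∑ j, (c j : ℝ) • LinearMap.proj j

theorem L_eq (c : Fin n → ℤ) (x : Fin n → ℝ) : ∑ j, c j * x j = L c x := by simp [L]

theorem L_single (c : Fin n → ℤ) (j : Fin n) : L c (Pi.single j 1) = c j := by
  simp [← L_eq, Pi.single_apply]

theorem rk {c : Fin n → ℤ} {j : Fin n} (h : c j ≠ 0) :
    Module.finrank ℝ (LinearMap.ker (L c)) + 1 = n := by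
  rw [Module.Dual.finrank_ker_add_one_of_ne_zero fun e => h (by
    have := L_single c j; rw [e, LinearMap.zero_apply] at this; exact_mod_cast this.symm)]
  simp

variable {ι : Type} [Fintype ι] {a : ι → Fin n → ℤ} {β : ι → ℝ} {P : Set (Fin n → ℝ)}

theorem pert (hP : ∀ x, x ∈ P ↔ ∀ k, L (a k) x ≤ β k) {z d : Fin n → ℝ} (hz : z ∈ P)
    (h : ∀ k, L (a k) z < β k ∨ L (a k) d = 0) : ∃ ε : ℝ, 0 < ε ∧ z + ε • d ∈ P ∧ z - ε • d ∈ P := by
  have : ∀ᶠ ε : ℝ in nhdsWithin 0 (Set.Ioi 0), ∀ k, L (a k) z + ε * L (a k) d ≤ β k ∧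
      L (a k) z - ε * L (a k) d ≤ β k := Filter.eventually_all.2 fun k => by
    rcases h k with h | h
    · refine nhdsWithin_le_nhds (Filter.Eventually.and ?_ ?_)
      · exact (ContinuousAt.eventually_lt (f := fun ε : ℝ => L (a k) z + ε * L (a k) d)
          (by fun_prop) continuousAt_const (by simpa)).mono fun _ => le_of_lt
      · exact (ContinuousAt.eventually_lt (f := fun ε : ℝ => L (a k) z - ε * L (a k) d)
          (by fun_prop) continuousAt_const (by simpa)).mono fun _ => le_of_lt
    · simp [h, (hP z).1 hz k]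
  obtain ⟨ε, h1, h2⟩ := (this.and self_mem_nhdsWithin).exists
  exact ⟨ε, h2, (hP _).2 fun k => by simpa using (h1 k).1, (hP _).2 fun k => by simpa using (h1 k).2⟩

theorem vs_le {c : Fin n → ℤ} {t : ℝ} {F : Set (Fin n → ℝ)} (h : ∀ x ∈ F, L c x = t) :
    vectorSpan ℝ F ≤ LinearMap.ker (L c) := by
  rw [vectorSpan_def, Submodule.span_le]
  rintro _ ⟨x, hx, y, hy, rfl⟩
  simp [h x hx, h y hy]

theorem facet_iff [Nonempty ι] (hP : ∀ x, x ∈ P ↔ ∀ k, L (a k) x ≤ β k)
    (h1 : ∀ k, ∃ j, a k j * a k j = 1) (h2 : ∀ k, ∃ z, L (a k) z = β k ∧ ∀ l ≠ k, L (a l) z < β l)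
    {y : Fin n → ℝ} (hy : ∀ k, L (a k) y < β k) {u : Fin n → ℝ} (c : Fin n → ℤ) :
    FacetNormal P u c ∧ u ∈ P ↔ u ∈ P ∧ ∃ k, a k = c ∧ L (a k) u = β k := by
  rw [FacetNormal, show {x ∈ P | ∑ j, c j * x j = ∑ j, c j * u j} = {x ∈ P | L c x = L c u} by
    simp only [L_eq]]
  simp only [L_eq]
  refine ⟨fun ⟨⟨g, v, r⟩, hu⟩ => ⟨hu, ?_⟩, ?_⟩
  · obtain ⟨i, hi⟩ : ∃ i, c i ≠ 0 := by
      by_contra! e
      simp [show c = 0 from funext e, Finset.gcd_eq_zero_iff.2] at g
    obtain ⟨k, hk⟩ : ∃ k, ∀ x ∈ {x ∈ P | L c x = L c u}, L (a k) x = β k := by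
      by_contra! e
      choose x x1 x2 using e
      have N : (0 : ℝ) < Fintype.card ι := by exact_mod_cast Fintype.card_pos
      have z1 : ∀ k, L (a k) ((Fintype.card ι : ℝ)⁻¹ • ∑ l, x l) < β k := fun k => by
        rw [map_smul, map_sum, smul_eq_mul, inv_mul_lt_iff₀ N]
        simpa using sum_lt_sum (fun l _ => (hP _).1 (x1 l).1 k)
          ⟨k, mem_univ _, ((hP _).1 (x1 k).1 k).lt_of_ne (x2 k)⟩
      have z2 : L c ((Fintype.card ι : ℝ)⁻¹ • ∑ l, x l) = L c u := by
        rw [map_smul, map_sum, sum_congr rfl fun l _ => (x1 l).2]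
        simp [N.ne']
      obtain ⟨ε, e0, e1, e2⟩ := pert (d := Pi.single i 1) hP ((hP _).2 fun k => (z1 k).le)
        fun k => .inl (z1 k)
      have := v _ e1
      have := v _ e2
      simp only [map_add, map_sub, z2, map_smul (L c) ε, L_single, smul_eq_mul] at *
      exact hi (by exact_mod_cast (mul_eq_zero.1 (show ε * c i = 0 by linarith)).resolve_left e0.ne')
    obtain ⟨j, hj⟩ := h1 k
    have e := (Submodule.eq_of_le_of_finrank_eq (vs_le hk) (Nat.succ_injective
      (r.trans (rk (left_ne_zero_of_mul_eq_one hj)).symm))).symm.trans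
      (Submodule.eq_of_le_of_finrank_eq (vs_le fun x h => h.2)
      (Nat.succ_injective (r.trans (rk hi).symm)))
    have e1 : ∀ l, c l = a k j * c j * a k l := fun l => by
      have : Pi.single l 1 - ((a k j * a k l : ℤ) : ℝ) • Pi.single j 1 ∈ LinearMap.ker (L (a k)) := by
        simp only [LinearMap.mem_ker, map_sub, map_smul, L_single, smul_eq_mul]
        exact_mod_cast (by linear_combination (-a k l) * hj : a k l - a k j * a k l * a k j = 0)
      simp only [e, LinearMap.mem_ker, map_sub, map_smul, L_single, smul_eq_mul] at this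
      have : c l - a k j * a k l * c j = 0 := by exact_mod_cast this
      linear_combination this
    generalize a k j * c j = s at e1
    have e2 : ∀ x, L c x = s * L (a k) x := fun x => by
      simp only [← L_eq, mul_sum, e1]; push_cast; simp only [mul_assoc]
    have e3 := v y ((hP y).2 fun k => (hy k).le)
    have e4 := hk u ⟨hu, rfl⟩
    rw [e2, e2, e4] at e3
    have : (0 : ℝ) ≤ s := by have := hy k; nlinarith
    have := Int.eq_one_of_dvd_one (by exact_mod_cast this)
      (g ▸ Finset.dvd_gcd fun l _ => ⟨_, e1 l⟩ : s ∣ 1)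
    exact ⟨k, funext fun l => by simp [e1 l, this], e4⟩
  · rintro ⟨hu, k, rfl, e⟩
    obtain ⟨j, hj⟩ := h1 k
    obtain ⟨z, z1, z2⟩ := h2 k
    have hz : z ∈ P := (hP z).2 fun l => by
      by_cases h : l = k
      · exact h ▸ z1.le
      · exact (z2 l h).le
    refine ⟨⟨?_, fun x hx => e ▸ (hP x).1 hx k, ?_⟩, hu⟩
    · rw [← Finset.normalize_gcd, normalize_eq_one]
      exact isUnit_of_dvd_one (hj ▸ (gcd_dvd (mem_univ j)).mul_right _)
    · refine .trans (congrArg (fun S : Submodule ℝ _ => Module.finrank ℝ S + 1) (le_antisymm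
        (vs_le (F := {x ∈ P | L (a k) x = L (a k) u}) fun x h => h.2) fun d hd => ?_))
        (rk (left_ne_zero_of_mul_eq_one hj))
      have hd : L (a k) d = 0 := hd
      obtain ⟨ε, e0, e1, -⟩ := pert (d := d) hP hz fun l => by
        by_cases h : l = k
        · exact .inr (h ▸ hd)
        · exact .inl (z2 l h)
      have := vsub_mem_vectorSpan ℝ (s := {x ∈ P | L (a k) x = L (a k) u}) ⟨e1, by simp [hd, z1, e]⟩
        ⟨hz, z1.trans e.symm⟩
      simpa [Submodule.smul_mem_iff _ e0.ne'] using this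

def A : Option (Fin n × Bool) → Fin n → ℤ
  | none => 1
  | some (j, s) => Pi.single j (bif s then 1 else -1)

def B (a : ℝ) (b : Fin n → ℝ) : Option (Fin n × Bool) → ℝ
  | none => a
  | some (j, s) => bif s then b j else 0

theorem LA0 (x : Fin n → ℝ) : L (A none) x = ∑ j, x j := by simp [← L_eq, A]
theorem LA1 (x : Fin n → ℝ) (j : Fin n) : L (A (some (j, true))) x = x j := by
  simp [← L_eq, A, Pi.single_apply]
theorem LA2 (x : Fin n → ℝ) (j : Fin n) : L (A (some (j, false))) x = -x j := by
  simp [← L_eq, A, Pi.single_apply]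

theorem box (hn : 2 ≤ n) {a : ℝ} {b : Fin n → ℝ} (hb : ∀ j, 0 < b j ∧ b j < a) (ha : a < ∑ j, b j)
    (hP : ∀ x, x ∈ P ↔ ∀ k, L (A k) x ≤ B a b k) :
    (∃ σ : Fin n → Bool, (∑ j, if σ j then b j else 0) = a) ↔ ¬ ∀ u ∈ P.extremePoints ℝ,
      ∃ M : Matrix (Fin n) (Fin n) ℤ, (∀ c, FacetNormal P u c ↔ ∃ i, M i = c) ∧ |M.det| = 1 := by
  have j0 : Fin n := ⟨0, by omega⟩
  have a0 : 0 < a := (hb j0).1.trans (hb j0).2
  have S0 := a0.trans ha
  have sm : ∀ t : ℝ, 0 < t → t ≤ a → ∀ k : Fin n × Bool,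
      L (A (some k)) ((t / ∑ j, b j) • b) < B a b (some k) := by
    rintro t t0 t1 ⟨j, _ | _⟩
    · simpa [LA2, B] using mul_pos (div_pos t0 S0) (hb j).1
    · simpa [LA1, B, (hb j).1] using (div_lt_one S0).2 (t1.trans_lt ha)
  have s0 : ∀ t : ℝ, L (A none) ((t / ∑ j, b j) • b) = t := fun t => by
    simp [LA0, S0.ne']
  have key : ∀ u ∈ P, ∀ c, FacetNormal P u c ↔ ∃ k, A k = c ∧ L (A k) u = B a b k := by
    intro u hu c
    simpa [hu] using facet_iff (u := u) (y := ((a / 2) / ∑ j, b j) • b) hP (by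
      rintro (_ | ⟨j, _ | _⟩)
      · exact ⟨j0, by simp [A]⟩
      · exact ⟨j, by simp [A]⟩
      · exact ⟨j, by simp [A]⟩) (by
      rintro (_ | ⟨j, s⟩)
      · refine ⟨_, s0 a, ?_⟩
        rintro (_ | k) h
        · exact absurd rfl h
        · exact sm a a0 le_rfl k
      · have := hb j
        refine ⟨Function.update (((a - b j) / ∑ j, b j) • b) j (bif s then b j else 0), by
          cases s <;> simp [LA1, LA2, B], ?_⟩
        rintro (_ | ⟨i, r⟩) h
        · have h1 := s0 (a - b j)
          have h2 := sm (a - b j) (by linarith) (by linarith) (j, false)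
          rw [LA0, ← add_sum_erase _ _ (mem_univ j)] at h1
          rw [LA0, sum_update_of_mem (mem_univ j), sdiff_singleton_eq_erase]
          rw [LA2] at h2
          cases s <;> simp only [B, cond] at * <;> linarith
        · by_cases e : i = j
          · subst e
            cases s <;> cases r <;> simp_all [LA1, LA2, B]
          · have := sm (a - b j) (by linarith) (by linarith) (i, r)
            cases r <;> simpa [LA1, LA2, e] using this) (by
      rintro (_ | k)
      · rw [s0]; simpa [B]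
      · exact sm _ (by linarith) (by linarith) k) c
  have mem : ∀ x ∈ P, ∀ j, 0 ≤ x j ∧ x j ≤ b j := fun x h j =>
    ⟨by simpa [LA2, B] using (hP x).1 h (some (j, false)),
      by simpa [LA1, B] using (hP x).1 h (some (j, true))⟩
  refine ⟨fun ⟨σ, h⟩ H => ?_, fun H => ?_⟩
  · have hu : (fun j => if σ j then b j else 0) ∈ P := (hP _).2 (by
      rintro (_ | ⟨j, _ | _⟩)
      · simp [LA0, B, h]
      · simp only [LA2, B, cond]; split <;> simp [(hb j).1.le]
      · simp only [LA1, B, cond]; split <;> simp [(hb j).1.le])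
    obtain ⟨M, h1, -⟩ := H _ (mem_extremePoints_iff_left.2 ⟨hu, fun x hx y hy ⟨s, t, s0, t0, e, f⟩ =>
      funext fun j => by
        have := mem x hx j
        have := mem y hy j
        have := congrFun f j
        simp only [Pi.add_apply, Pi.smul_apply, smul_eq_mul] at this
        obtain rfl : t = 1 - s := by linarith
        split_ifs at * <;> nlinarith⟩)
    have : ∀ k : Option (Fin n), ∃ i, M i = A (k.map fun j => (j, σ j)) := fun k =>
      (h1 _).1 ((key _ hu _).2 ⟨_, rfl, by
        rcases k with _ | j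
        · simp [LA0, B, h]
        · cases e : σ j <;> simp [e, LA1, LA2, B]⟩)
    choose f hf using this
    have := Fintype.card_le_of_injective f fun k l e => by
      have := (hf k).symm.trans (e ▸ hf l)
      have nn : ∀ j s, (1 : Fin n → ℤ) ≠ Pi.single j s := fun j s e => by
        have : Nontrivial (Fin n) := Fin.nontrivial_iff_two_le.2 hn
        obtain ⟨i, hi⟩ := exists_ne j
        simpa [hi] using congrFun e i
      rcases k with _ | i <;> rcases l with _ | j
      · rfl
      · exact absurd this (nn _ _)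
      · exact absurd this.symm (nn _ _)
      · by_contra c
        have := congrFun this i
        have c : i ≠ j := fun e => c (e ▸ rfl)
        cases e : σ i <;> simp [A, c, e] at this
    simp at this
  · by_contra c
    refine H fun u hu => ?_
    obtain ⟨hu, ex⟩ := mem_extremePoints_iff_left.1 hu
    have rig : ∀ d, (∀ k, L (A k) u < B a b k ∨ L (A k) d = 0) → d = 0 := fun d h => by
      obtain ⟨ε, e0, e1, e2⟩ := pert hP hu h
      have := ex _ e1 _ e2 ⟨1 / 2, 1 / 2, by norm_num, by norm_num, by norm_num, by module⟩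
      simpa [e0.ne'] using this
    let σ : Fin n → Bool := fun j => decide (u j = b j)
    have hD : |(Matrix.diagonal fun j => (bif σ j then 1 else -1 : ℤ)).det| = 1 := by
      rw [Matrix.det_diagonal, abs_prod]
      exact prod_eq_one fun j _ => by cases σ j <;> simp
    have rD : ∀ j, (Matrix.diagonal fun j => (bif σ j then 1 else -1 : ℤ)) j = A (some (j, σ j)) :=
      fun j => funext fun i => by simp [A, Matrix.diagonal_apply, Pi.single_apply, eq_comm]
    have tg : ∀ j s, L (A (some (j, s))) u = B a b (some (j, s)) ↔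
        s = σ j ∧ (u j = 0 ∨ u j = b j) := fun j s => by
      have := hb j
      cases s <;> simp [LA1, LA2, B, σ] <;> grind
    have fr : ∀ j, ¬ (u j = 0 ∨ u j = b j) → ∀ s, L (A (some (j, s))) u < B a b (some (j, s)) :=
      fun j h s => ((hP u).1 hu _).lt_of_ne fun e => h ((tg j s).1 e).2
    have off : ∀ (i j : Fin n) s, i ≠ j → L (A (some (i, s))) (Pi.single j 1) = 0 := fun i j s h => by
      simp [L_single, A, h.symm]
    by_cases h : ∀ j, u j = 0 ∨ u j = b j
    · refine ⟨_, fun x => ?_, hD⟩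
      simp only [key u hu, rD]
      refine ⟨?_, fun ⟨j, e⟩ => ⟨_, e, (tg _ _).2 ⟨rfl, h j⟩⟩⟩
      rintro ⟨_ | ⟨j, s⟩, rfl, e⟩
      · refine (c ⟨σ, .trans (sum_congr rfl fun j _ => ?_) ((LA0 u).symm.trans e)⟩).elim
        simp only [σ, decide_eq_true_eq]
        split
        · exact Eq.symm ‹_›
        · exact ((h j).resolve_right ‹_›).symm
      · exact ⟨j, by rw [((tg _ _).1 e).1]⟩
    obtain ⟨j, hj⟩ := not_forall.1 h
    have t0 : L (A none) u = B a b none := by
      by_contra e
      simpa using congrFun (rig (Pi.single j 1) (by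
        rintro (_ | ⟨i, s⟩)
        · exact .inl (((hP u).1 hu _).lt_of_ne e)
        · by_cases f : i = j
          · exact .inl (f ▸ fr j hj s)
          · exact .inr (off i j s f))) j
    have t1 : ∀ i ≠ j, u i = 0 ∨ u i = b i := fun i hi => by
      by_contra e
      have := congrFun (rig (Pi.single j 1 - Pi.single i 1) (by
        rintro (_ | ⟨l, s⟩)
        · simp [L_single, A]
        · by_cases f : l = j
          · exact .inl (f ▸ fr j hj s)
          by_cases g : l = i
          · exact .inl (g ▸ fr i e s)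
          · simp [off _ _ s f, off _ _ s g])) j
      rw [Pi.sub_apply, Pi.single_eq_same, Pi.single_eq_of_ne (Ne.symm hi)] at this
      simp at this
    refine ⟨(Matrix.diagonal fun j => (bif σ j then 1 else -1 : ℤ)).updateRow j 1, fun x => ?_, ?_⟩
    · simp only [key u hu]
      refine ⟨?_, fun ⟨i, e⟩ => ?_⟩
      · rintro ⟨_ | ⟨i, s⟩, rfl, e⟩
        · exact ⟨j, Matrix.updateRow_self⟩
        · have := (tg _ _).1 e
          exact ⟨i, by rw [Matrix.updateRow_ne fun f : i = j => hj (f ▸ this.2), rD, this.1]⟩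
      · by_cases f : i = j
        · exact ⟨none, by rw [← e, f, Matrix.updateRow_self]; rfl, t0⟩
        · exact ⟨_, by rw [← e, Matrix.updateRow_ne f, rD], (tg _ _).2 ⟨rfl, t1 i f⟩⟩
    · rw [show (1 : Fin n → ℤ) = ∑ i, (bif σ i then 1 else -1 : ℤ) •
        (Matrix.diagonal fun j => (bif σ j then 1 else -1 : ℤ)) i from funext fun l => by
          simp only [Finset.sum_apply, Pi.smul_apply, Matrix.diagonal_apply, smul_eq_mul, mul_ite,
            mul_zero, sum_ite_eq', mem_univ, if_true]
          cases σ l <;> simp, Matrix.det_updateRow_sum, smul_eq_mul, abs_mul, hD]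
      cases σ j <;> simp

end

open Pool.Agent.H23.SS

def red (p : List (List Bool) × List Bool) : ℕ × List (List Bool × List Bool) :=
  (p.1.length, (List.replicate p.1.length true, p.2) :: (List.range p.1.length).map fun j =>
    ((List.range p.1.length).map fun i => i == j, p.1.getD j []))

theorem poly_red (p : List (List Bool) × List Bool) (x : Fin p.1.length → ℝ) :
    x ∈ poly p.1.length (red p).2 ↔ ∀ k, L (A k) x ≤ B (bin p.2) (fun j => bin (p.1.getD j [])) k := by
  simp only [poly, red, List.forall_mem_cons, List.forall_mem_map, List.mem_range,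
    Set.mem_ofPred_eq, Option.forall, Prod.forall, Bool.forall_bool, LA0, LA1, LA2, B, cond,
    forall_and]
  have : ∀ j : Fin p.1.length, (∑ i : Fin p.1.length, if ((List.range p.1.length).map
      fun i => i == j.1).getD i false then x i else 0) = x j := fun j => by
    simp [List.getD_eq_getElem?_getD, Fin.val_inj]
  refine ⟨fun ⟨a, b, c⟩ => ⟨by simpa using b, fun j => neg_nonpos.2 (a j),
    fun j => this j ▸ c j j.2⟩, fun ⟨a, b, c⟩ => ⟨fun j => neg_nonpos.1 (b j), by simpa using a,
    fun j h => (this ⟨j, h⟩).trans_le (c ⟨j, h⟩)⟩⟩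

theorem result (L : List Bool → Prop) (hL : InNP L) :
    ∃ f : List Bool → ℕ × List (List Bool × List Bool), PolyTime id bits f ∧
      ∀ x, Valid (f x) ∧ (L x ↔ ¬ Uni (f x)) := by
  obtain ⟨f, hf, e⟩ := hard_SS.red (Val' := Valid) (Y := fun p => ¬ Uni p) red
    (by unfold red; fun_prop) (fun p ⟨h1, h2, h3⟩ => by
      refine ⟨?_, Iff.trans ?_ (box (a := bin p.2) (b := fun j : Fin p.1.length =>
        bin (p.1.getD j [])) h1 (fun j => by exact_mod_cast h2 j j.2) ?_ fun x => ?_)⟩
      · have := h2 0 (by omega)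
        simp only [Valid, red, List.forall_mem_cons, List.forall_mem_map, List.mem_range]
        exact ⟨⟨by simp, by omega⟩, fun j h => ⟨by simp, (h2 j h).1⟩⟩
      · refine ⟨fun ⟨σ, h⟩ => ⟨fun j => σ j, ?_⟩,
          fun ⟨σ, h⟩ => ⟨fun j => if h : j < _ then σ ⟨j, h⟩ else false, ?_⟩⟩
        · rw [← h, sum_range]; simp
        · rw [sum_range]
          simp only [Fin.is_lt, dite_true]
          exact_mod_cast h
      · rw [sum_range] at h3; exact_mod_cast h3
      · exact poly_red p x) L hL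
  exact ⟨f, hf.polyTime_raw, e⟩

end Pool.Agent.Results.MP_148663_lc.CoNPHard
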